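import Pool.Agent.Helper76.TK7.StK

/-!
# Module DIM12 of project TK (level `3 * 7^n`): invariants of a dihedral group of order twelve
-/

set_option autoImplicit false

open Pool.Agent.Helper76.S7

namespace Pool.Agent.Helper8.TK7

open Pool.Agent.Helper76.TK7

private instance : Fact (Nat.Prime 7) := ⟨by norm_num⟩

/-- the translation by `c` times `7^(m-1)` -/
private def T (m : ℕ) (c : ZMod 7) : ZMod (7 ^ m) := ((c.val : ℕ) : ZMod (7 ^ m)) * 7 ^ (m - 1)

private lemma h7 (m : ℕ) : (7 : ZMod (7 ^ m)) ^ m = 0 := by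
  have := ZMod.natCast_self (7 ^ m)
  push_cast at this
  exact this

private lemma h7t (m : ℕ) (hm : 1 ≤ m) : (7 : ZMod (7 ^ m)) * 7 ^ (m - 1) = 0 := by
  rw [← pow_succ', Nat.sub_add_cancel hm]
  exact h7 m

private lemma T_zero (m : ℕ) : T m 0 = 0 := by simp [T]

private lemma T_add (m : ℕ) (hm : 1 ≤ m) (a b : ZMod 7) : T m (a + b) = T m a + T m b := by
  unfold T
  rw [ZMod.val_add]
  have h1 := Nat.mod_add_div (a.val + b.val) 7
  have h2 : (((a.val + b.val) % 7 + 7 * ((a.val + b.val) / 7) : ℕ) : ZMod (7 ^ m)) =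
      ((a.val + b.val : ℕ) : ZMod (7 ^ m)) := by rw [h1]
  push_cast at h2
  have h3 := h7t m hm
  linear_combination (7 : ZMod (7 ^ m)) ^ (m - 1) * h2 -
    (((a.val + b.val) / 7 : ℕ) : ZMod (7 ^ m)) * h3

private lemma T_mul (m : ℕ) (hm : 1 ≤ m) (s : ℤ) (c : ZMod 7) :
    T m ((s : ZMod 7) * c) = (s : ZMod (7 ^ m)) * T m c := by
  let Th : ZMod 7 →+ ZMod (7 ^ m) :=
    { toFun := T m, map_zero' := T_zero m, map_add' := T_add m hm }
  have h : Th (s • c) = s • Th c := map_zsmul Th s c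
  rw [zsmul_eq_mul, zsmul_eq_mul] at h
  exact h

private lemma T_inj (m : ℕ) (hm : 1 ≤ m) (a : ZMod 7) (h : T m a = 0) : a = 0 := by
  have h4 : ((a.val * 7 ^ (m - 1) : ℕ) : ZMod (7 ^ m)) = 0 := by
    push_cast
    exact h
  rw [ZMod.natCast_eq_zero_iff] at h4
  have h6 : 7 ^ m = 7 * 7 ^ (m - 1) := by
    rw [← pow_succ', Nat.sub_add_cancel hm]
  rw [h6] at h4
  have h7 : 7 ∣ a.val := Nat.dvd_of_mul_dvd_mul_right (by positivity) h4
  have h8 : a.val < 7 := ZMod.val_lt a
  have h9 : a.val = 0 := Nat.eq_zero_of_dvd_of_lt h7 h8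
  exact (ZMod.val_eq_zero a).1 h9

private lemma ne_of {s : ℤ} (h : ¬ (7 : ℤ) ∣ s) : (s : ZMod 7) ≠ 0 := by
  intro h0
  exact h ((ZMod.intCast_zmod_eq_zero_iff_dvd s 7).1 h0)

private lemma unit_of (m : ℕ) {s : ℤ} (h : ¬ (7 : ℤ) ∣ s) : IsUnit (s : ZMod (7 ^ m)) := by
  have h1 : IsCoprime (7 : ℤ) s := by
    have h2 := (Nat.prime_iff_prime_int.1 (by norm_num : Nat.Prime 7)).coprime_iff_not_dvd (n := s)
    exact_mod_cast h2.2 (by exact_mod_cast h)
  obtain ⟨a, b, hab⟩ := (h1.symm.pow_right (n := m))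
  have h3 : ((a * s + b * 7 ^ m : ℤ) : ZMod (7 ^ m)) = 1 := by rw [hab]; simp
  push_cast at h3
  rw [h7, mul_zero, add_zero] at h3
  exact IsUnit.of_mul_eq_one (a : ZMod (7 ^ m)) (by rw [mul_comm]; exact h3)

/-- the translations of the plane -/
private def tau {m : ℕ} (c : ZMod 7 × ZMod 7) (p : Pt m) : Pt m := (p.1 + T m c.1, p.2 + T m c.2)

private lemma tau_tau {m : ℕ} (hm : 1 ≤ m) (c d : ZMod 7 × ZMod 7) (p : Pt m) :
    tau c (tau d p) = tau (c + d) p := by
  unfold tau
  simp only [Prod.fst_add, Prod.snd_add, T_add m hm]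
  refine Prod.ext ?_ ?_ <;> simp only <;> ring

/-- the weights -/
private noncomputable def w (c : ZMod 7) : ℂ := (if c = 0 then 1 else 0) - 1 / 7

private noncomputable def W (c : ZMod 7 × ZMod 7) : ℂ := w c.1 * w c.2

private lemma w_mul {s : ZMod 7} (hs : s ≠ 0) (c : ZMod 7) : w (s * c) = w c := by
  simp [w, hs]

private lemma sum_w : ∑ c : ZMod 7, w c = 0 := by
  simp only [w, Finset.sum_sub_distrib, Finset.sum_ite_eq', Finset.mem_univ, if_true,
    Finset.sum_const, Finset.card_univ, ZMod.card]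
  norm_num

private lemma sum_ww : ∑ c : ZMod 7, w c * w c = 6 / 7 := by
  have h : ∀ c : ZMod 7, w c * w c = (if c = 0 then (5 / 7 : ℂ) else 0) + 1 / 49 := by
    intro c
    unfold w
    split_ifs <;> norm_num
  simp only [h, Finset.sum_add_distrib, Finset.sum_ite_eq', Finset.mem_univ, if_true,
    Finset.sum_const, Finset.card_univ, ZMod.card]
  norm_num

/-- the average -/
private noncomputable def Av {m : ℕ} (G : Pt m → ℂ) (p : Pt m) : ℂ :=
  ∑ c : ZMod 7 × ZMod 7, W c * G (tau c p)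

private lemma sum7 {m : ℕ} (f : ZMod (7 ^ m) → ℂ) (x : ZMod (7 ^ m)) :
    ∑ i ∈ Finset.range 7, f (x + i * 7 ^ (m - 1)) = ∑ c : ZMod 7, f (x + T m c) := by
  rw [Finset.sum_range]
  rfl

private lemma mem_anti {m : ℕ} (F : Pt m → ℂ) : F ∈ anti7 m ↔ ∀ p : Pt m,
    ∑ c : ZMod 7, F (tau (c, 0) p) = 0 ∧ ∑ c : ZMod 7, F (tau (0, c) p) = 0 := by
  have e1 : ∀ p : Pt m, ∑ i ∈ Finset.range 7, F (p.1 + i * 7 ^ (m - 1), p.2) =
      ∑ c : ZMod 7, F (tau (c, 0) p) := by
    intro p
    rw [sum7 (fun x => F (x, p.2)) p.1]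
    simp only [tau, T_zero, add_zero]
  have e2 : ∀ p : Pt m, ∑ i ∈ Finset.range 7, F (p.1, p.2 + i * 7 ^ (m - 1)) =
      ∑ c : ZMod 7, F (tau (0, c) p) := by
    intro p
    rw [sum7 (fun x => F (p.1, x)) p.2]
    simp only [tau, T_zero, add_zero]
  change (∀ p : Pt m, ∑ i ∈ Finset.range 7, F (p.1 + i * 7 ^ (m - 1), p.2) = 0 ∧
    ∑ i ∈ Finset.range 7, F (p.1, p.2 + i * 7 ^ (m - 1)) = 0) ↔ _
  simp only [e1, e2]

private lemma Av_anti {m : ℕ} (hm : 1 ≤ m) (G : Pt m → ℂ) : Av G ∈ anti7 m := by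
  rw [mem_anti]
  intro p
  constructor
  · have h1 : ∀ d : ZMod 7, Av G (tau (d, 0) p) =
        ∑ c : ZMod 7 × ZMod 7, W (c - (d, 0)) * G (tau c p) := by
      intro d
      unfold Av
      rw [← Equiv.sum_comp (Equiv.subRight ((d, 0) : ZMod 7 × ZMod 7))]
      refine Finset.sum_congr rfl fun c _ => ?_
      simp only [Equiv.subRight_apply]
      rw [tau_tau hm, sub_add_cancel]
    simp only [h1]
    rw [Finset.sum_comm]
    refine Finset.sum_eq_zero fun c _ => ?_
    rw [← Finset.sum_mul]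
    have h2 : ∑ d : ZMod 7, W (c - (d, 0)) = 0 := by
      simp only [W, Prod.fst_sub, Prod.snd_sub, sub_zero]
      have h3 := Equiv.sum_comp (Equiv.subLeft c.1) w
      simp only [Equiv.subLeft_apply] at h3
      rw [← Finset.sum_mul, h3, sum_w, zero_mul]
    rw [h2, zero_mul]
  · have h1 : ∀ d : ZMod 7, Av G (tau (0, d) p) =
        ∑ c : ZMod 7 × ZMod 7, W (c - (0, d)) * G (tau c p) := by
      intro d
      unfold Av
      rw [← Equiv.sum_comp (Equiv.subRight ((0, d) : ZMod 7 × ZMod 7))]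
      refine Finset.sum_congr rfl fun c _ => ?_
      simp only [Equiv.subRight_apply]
      rw [tau_tau hm, sub_add_cancel]
    simp only [h1]
    rw [Finset.sum_comm]
    refine Finset.sum_eq_zero fun c _ => ?_
    rw [← Finset.sum_mul]
    have h2 : ∑ d : ZMod 7, W (c - (0, d)) = 0 := by
      simp only [W, Prod.fst_sub, Prod.snd_sub, sub_zero]
      have h3 := Equiv.sum_comp (Equiv.subLeft c.2) w
      simp only [Equiv.subLeft_apply] at h3
      rw [← Finset.mul_sum, h3, sum_w, mul_zero]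
    rw [h2, zero_mul]

private lemma Av_id {m : ℕ} (hm : 1 ≤ m) (G : Pt m → ℂ) (hG : G ∈ anti7 m) (p : Pt m) :
    Av G p = G p := by
  rw [mem_anti] at hG
  have hw : ∀ f : ZMod 7 → ℂ, ∑ c : ZMod 7, f c = 0 → ∑ c : ZMod 7, w c * f c = f 0 := by
    intro f hf
    simp only [w, sub_mul, ite_mul, one_mul, zero_mul, Finset.sum_sub_distrib,
      Finset.sum_ite_eq', Finset.mem_univ, if_true]
    rw [← Finset.mul_sum, hf, mul_zero, sub_zero]
  unfold Av
  rw [Fintype.sum_prod_type]
  have h1 : ∀ c1 : ZMod 7, ∑ c2 : ZMod 7, W (c1, c2) * G (tau (c1, c2) p) =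
      w c1 * G (tau (c1, 0) p) := by
    intro c1
    have h2 := hw (fun c2 => G (tau (c1, c2) p)) (by
      have h3 := (hG (tau (c1, 0) p)).2
      simp only [tau_tau hm] at h3
      simpa using h3)
    simp only [W, mul_assoc]
    rw [← Finset.mul_sum, h2]
  simp only [h1]
  rw [hw (fun c1 => G (tau (c1, 0) p)) (hG p).1]
  congr 1
  simp [tau, T_zero]

private lemma dv_T {m : ℕ} (hm : 1 ≤ m) {s : ℤ} {φ : ZMod (7 ^ m) → ZMod (7 ^ m)} (h : Dv s φ)
    (c : ZMod 7) (x : ZMod (7 ^ m)) : φ (x + T m c) = φ x + s * T m c := by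
  have h1 := h (m - 1) (x + T m c) x ⟨((c.val : ℕ) : ZMod (7 ^ m)), by unfold T; ring⟩
  rw [Nat.sub_add_cancel hm, h7, zero_dvd_iff] at h1
  linear_combination h1

private lemma ml {a : ZMod 7} (ha : a ≠ 0) (x : ZMod 7) : Equiv.mulLeft₀ a ha x = a * x := rfl

private lemma law {m n : ℕ} (hm : 1 ≤ m) {r : Pt m → Pt m} (h : Ty n r) :
    ∃ L : Equiv.Perm (ZMod 7 × ZMod 7), (∀ c p, r (tau c p) = tau (L c) (r p)) ∧
      ∀ c, W (L c) = W c := by
  rcases h with ⟨_, s, s', φ, φ', hs, _, hs', _, hφ, hφ', hr⟩ | ⟨_, s, s', ψ, ψ', hs, hs', hψ, hψ', hr⟩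
  · refine ⟨Equiv.prodCongr (Equiv.mulLeft₀ (s : ZMod 7) (ne_of hs))
      (Equiv.mulLeft₀ (s' : ZMod 7) (ne_of hs')), ?_, ?_⟩
    · intro c p
      rw [hr, hr]
      simp only [tau, Equiv.prodCongr_apply, Prod.map_fst, Prod.map_snd, ml,
        T_mul m hm, dv_T hm hφ, dv_T hm hφ']
    · intro c
      simp only [W, Equiv.prodCongr_apply, Prod.map_fst, Prod.map_snd, ml,
        w_mul (ne_of hs), w_mul (ne_of hs')]
  · refine ⟨(Equiv.prodComm _ _).trans (Equiv.prodCongr (Equiv.mulLeft₀ (s : ZMod 7) (ne_of hs))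
      (Equiv.mulLeft₀ (s' : ZMod 7) (ne_of hs'))), ?_, ?_⟩
    · intro c p
      rw [hr, hr]
      simp only [tau, Equiv.trans_apply, Equiv.prodComm_apply, Equiv.prodCongr_apply, Prod.map_fst,
        Prod.map_snd, ml, Prod.fst_swap, Prod.snd_swap, T_mul m hm, dv_T hm hψ,
        dv_T hm hψ']
    · intro c
      simp only [W, Equiv.trans_apply, Equiv.prodComm_apply, Equiv.prodCongr_apply, Prod.map_fst,
        Prod.map_snd, ml, Prod.fst_swap, Prod.snd_swap, w_mul (ne_of hs),
        w_mul (ne_of hs')]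
      ring

private lemma Av_comp {m n : ℕ} (hm : 1 ≤ m) {r : Pt m → Pt m} (h : Ty n r) (G : Pt m → ℂ)
    (p : Pt m) : Av G (r p) = Av (fun q => G (r q)) p := by
  obtain ⟨L, hL, hW⟩ := law hm h
  unfold Av
  simp only [hL]
  rw [← Equiv.sum_comp L]
  refine Finset.sum_congr rfl fun c _ => ?_
  rw [hW]

private lemma comp_anti {m n : ℕ} (hm : 1 ≤ m) {r : Pt m → Pt m} (h : Ty n r) {F : Pt m → ℂ}
    (hF : F ∈ anti7 m) : (fun p => F (r p)) ∈ anti7 m := by
  have e : (fun p => F (r p)) = Av (fun q => F (r q)) := by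
    funext p
    rw [← Av_comp hm h F p, Av_id hm F hF]
  rw [e]
  exact Av_anti hm _

/-! ### Fixed points -/

private noncomputable def Cn {m : ℕ} (f : Pt m → Pt m) : ℂ :=
  ∑ c : ZMod 7 × ZMod 7, W c * ((Finset.univ.filter fun p : Pt m => f (tau c p) = p).card : ℂ)

private lemma card_graph {Z : Type} [Fintype Z] [DecidableEq Z] (f : Z × Z → Z × Z) (g : Z → Z)
    (h : ∀ x y, f (x, y) = (x, y) ↔ x = g y) :
    (Finset.univ.filter fun p : Z × Z => f p = p).card = Fintype.card Z := by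
  have h1 : (Finset.univ.filter fun p : Z × Z => f p = p) =
      Finset.univ.image fun y : Z => (g y, y) := by
    ext ⟨x, y⟩
    simp only [Finset.mem_filter, Finset.mem_univ, true_and, Finset.mem_image, Prod.mk.injEq, h]
    constructor
    · intro hx
      exact ⟨y, hx.symm, rfl⟩
    · rintro ⟨z, hz, rfl⟩
      exact hz.symm
  rw [h1, Finset.card_image_of_injective, Finset.card_univ]
  intro y y' hy
  exact (Prod.mk.inj hy).2

private lemma card_none {Z : Type} [Fintype Z] [DecidableEq Z] (f : Z × Z → Z × Z)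
    (h : ∀ x y, f (x, y) ≠ (x, y)) :
    (Finset.univ.filter fun p : Z × Z => f p = p).card = 0 := by
  rw [Finset.card_eq_zero, Finset.filter_eq_empty_iff]
  rintro ⟨x, y⟩ _
  exact h x y

private lemma card_prod {Z : Type} [Fintype Z] [DecidableEq Z] (f : Z × Z → Z × Z)
    (A B : Finset Z) (h : ∀ x y, f (x, y) = (x, y) ↔ x ∈ A ∧ y ∈ B) :
    (Finset.univ.filter fun p : Z × Z => f p = p).card = A.card * B.card := by
  rw [← Finset.card_product]
  congr 1
  ext ⟨x, y⟩
  simp only [Finset.mem_filter, Finset.mem_univ, true_and, Finset.mem_product, h]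

private lemma count0 {m : ℕ} (hm : 1 ≤ m) : Cn (fun p : Pt m => p) = 36 * 49 ^ (m - 1) := by
  unfold Cn
  have h1 : ∀ c : ZMod 7 × ZMod 7, ((Finset.univ.filter fun p : Pt m => tau c p = p).card : ℂ) =
      if c = 0 then ((7 ^ m : ℕ) : ℂ) * ((7 ^ m : ℕ) : ℂ) else 0 := by
    intro c
    split_ifs with hc
    · rw [card_prod _ Finset.univ Finset.univ, Finset.card_univ, ZMod.card]
      · push_cast; ring
      · intro x y
        simp [hc, tau, T_zero]
    · rw [card_none]
      · simp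
      · intro x y h
        apply hc
        have h2 := (Prod.mk.inj h).1
        have h3 := (Prod.mk.inj h).2
        simp only [add_eq_left] at h2 h3
        exact Prod.ext (T_inj m hm _ h2) (T_inj m hm _ h3)
  simp only [h1, mul_ite, mul_zero, Finset.sum_ite_eq', Finset.mem_univ, if_true]
  have h2 : W 0 = 36 / 49 := by
    simp only [W, w, Prod.fst_zero, Prod.snd_zero, if_true]
    norm_num
  have h3 : ((7 ^ m : ℕ) : ℂ) = 7 * 7 ^ (m - 1) := by
    rw [← pow_succ', Nat.sub_add_cancel hm]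
    push_cast
    ring
  have h4 : (49 : ℂ) ^ (m - 1) = 7 ^ (m - 1) * 7 ^ (m - 1) := by
    rw [← mul_pow]; norm_num
  rw [h2, h3, h4]
  ring

private lemma inj0 {m : ℕ} {s : ℤ} {φ : ZMod (7 ^ m) → ZMod (7 ^ m)} (hs : ¬ (7 : ℤ) ∣ s - 1)
    (h : Dv s φ) : Function.Injective fun x : ZMod (7 ^ m) => x - φ x := by
  intro x x' hxx
  have hxx' : x - φ x = x' - φ x' := hxx
  have hu : IsUnit (-((s - 1 : ℤ) : ZMod (7 ^ m))) := (unit_of m hs).neg
  have h1 : ∀ i : ℕ, (7 : ZMod (7 ^ m)) ^ i ∣ x - x' := by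
    intro i
    induction i with
    | zero => simp
    | succ i ih =>
      have h2 := h i x x' ih
      have h3 : φ x - φ x' - (s : ZMod (7 ^ m)) * (x - x') =
          (-((s - 1 : ℤ) : ZMod (7 ^ m))) * (x - x') := by
        push_cast
        linear_combination -hxx'
      rw [h3] at h2
      exact (IsUnit.dvd_mul_left hu).1 h2
  have h4 := h1 m
  rw [h7, zero_dvd_iff] at h4
  exact sub_eq_zero.1 h4

private lemma fix0 {m : ℕ} {s : ℤ} {φ : ZMod (7 ^ m) → ZMod (7 ^ m)} (hm : 1 ≤ m)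
    (hs : ¬ (7 : ℤ) ∣ s - 1) (h : Dv s φ)
    (c : ZMod 7) : ∃ x0, ∀ x, φ (x + T m c) = x ↔ x ∈ ({x0} : Finset (ZMod (7 ^ m))) := by
  have hinj := inj0 hs h
  have hsur : Function.Surjective fun x : ZMod (7 ^ m) => x - φ x :=
    Finite.surjective_of_injective hinj
  obtain ⟨x0, hx0⟩ := hsur (s * T m c)
  have hx0' : x0 - φ x0 = s * T m c := hx0
  refine ⟨x0, fun x => ?_⟩
  rw [dv_T hm h, Finset.mem_singleton]
  constructor
  · intro hx
    apply hinj
    show x - φ x = x0 - φ x0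
    rw [hx0']
    linear_combination -hx
  · intro hx
    rw [hx]
    linear_combination -hx0'

private lemma count {m n : ℕ} (hm : 1 ≤ m) {r : Pt m → Pt m} (h : Ty n r)
    (hr2 : n = 1 → ∀ p, r (r p) = p) : Cn r = n * (6 * 7 ^ (m - 1)) := by
  unfold Cn
  rcases h with ⟨hn, s, s', φ, φ', _, hs, _, hs', hφ, hφ', hr⟩ | ⟨hn, s, s', ψ, ψ', hs, hs', hψ, hψ', hr⟩
  · have h1 : ∀ c : ZMod 7 × ZMod 7,
        ((Finset.univ.filter fun p : Pt m => r (tau c p) = p).card : ℂ) = 1 := by
      intro c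
      obtain ⟨x0, hx0⟩ := fix0 hm hs hφ c.1
      obtain ⟨y0, hy0⟩ := fix0 hm hs' hφ' c.2
      rw [card_prod _ {x0} {y0}]
      · simp
      · intro x y
        rw [hr]
        simp only [tau, Prod.mk.injEq, hx0, hy0]
    simp only [h1, mul_one]
    rw [Fintype.sum_prod_type]
    simp only [W]
    rw [← Finset.sum_mul_sum, sum_w, hn]
    simp
  · have h1 : ∀ c : ZMod 7 × ZMod 7,
        ((Finset.univ.filter fun p : Pt m => r (tau c p) = p).card : ℂ) =
          if c.2 = -((s' : ZMod 7) * c.1) then ((7 ^ m : ℕ) : ℂ) else 0 := by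
      intro c
      have hinv : ∀ y, ψ' (ψ y) = y := by
        intro y
        have h2 := hr2 hn (0, y)
        rw [hr, hr] at h2
        exact (Prod.mk.inj h2).2
      have hkey : ∀ y, ψ' (ψ (y + T m c.2) + T m c.1) =
          y + (T m c.2 + T m ((s' : ZMod 7) * c.1)) := by
        intro y
        rw [dv_T hm hψ', hinv, T_mul m hm]
        ring
      split_ifs with hc
      · rw [card_graph _ (fun y => ψ (y + T m c.2)), ZMod.card]
        intro x y
        rw [hr]
        simp only [tau, Prod.mk.injEq]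
        constructor
        · intro h; exact h.1.symm
        · intro h
          refine ⟨h.symm, ?_⟩
          rw [h, hkey, ← T_add m hm, hc, neg_add_cancel, T_zero, add_zero]
      · rw [card_none]
        · simp
        · intro x y h
          rw [hr] at h
          simp only [tau, Prod.mk.injEq] at h
          apply hc
          have h3 := h.2
          rw [← h.1, hkey] at h3
          have h4 : T m (c.2 + (s' : ZMod 7) * c.1) = 0 := by
            rw [T_add m hm]
            linear_combination h3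
          have h6 := T_inj m hm _ h4
          exact eq_neg_of_add_eq_zero_left h6
    simp only [h1]
    rw [Fintype.sum_prod_type]
    simp only [mul_ite, mul_zero, Finset.sum_ite_eq', Finset.mem_univ, if_true, W]
    have hns : (-(s' : ZMod 7)) ≠ 0 := neg_ne_zero.2 (ne_of hs')
    have h8 : ∀ c : ZMod 7, w (-((s' : ZMod 7) * c)) = w c := by
      intro c
      rw [← neg_mul, w_mul hns]
    simp only [h8]
    rw [← Finset.sum_mul, sum_ww, hn]
    have h3 : ((7 ^ m : ℕ) : ℂ) = 7 * 7 ^ (m - 1) := by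
      rw [← pow_succ', Nat.sub_add_cancel hm]
      push_cast
      ring
    rw [h3]
    push_cast
    ring

private lemma gen (hq : Pool.Agent.Helper78.W3.S3Trq) {m : ℕ} (hm : 1 ≤ m) (N : ℕ)
    (g : Fin N → Pt m → Pt m) (ε : Fin N → ℂ) (κ : ℂ) (V : Submodule ℂ (Pt m → ℂ))
    (hg : ∀ i G p, Av G (g i p) = Av (fun q => G (g i q)) p) (hV : V ≤ anti7 m)
    (h1 : ∀ F ∈ anti7 m, (fun p => κ * ∑ i, ε i * F (g i p)) ∈ V)
    (h2 : ∀ F ∈ V, ∀ p, κ * ∑ i, ε i * F (g i p) = F p) :
    (Module.finrank ℂ V : ℂ) = κ * ∑ i, ε i * Cn (g i) := by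
  have hval : ∀ (F : Pt m → ℂ) (p : Pt m),
      ∑ h : Fin N × (ZMod 7 × ZMod 7), (κ * ε h.1 * W h.2) * F (g h.1 (tau h.2 p)) =
      κ * ∑ i, ε i * Av F (g i p) := by
    intro F p
    rw [Fintype.sum_prod_type, Finset.mul_sum]
    refine Finset.sum_congr rfl fun i _ => ?_
    rw [hg]
    unfold Av
    rw [Finset.mul_sum, Finset.mul_sum]
    refine Finset.sum_congr rfl fun c _ => ?_
    ring
  have key := hq (Pt m) inferInstance inferInstance (Fin N × (ZMod 7 × ZMod 7)) inferInstance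
    (fun h p => g h.1 (tau h.2 p)) (fun h => κ * ε h.1 * W h.2) V ?_ ?_
  · rw [key, Fintype.sum_prod_type, Finset.mul_sum]
    refine Finset.sum_congr rfl fun i _ => ?_
    unfold Cn
    rw [Finset.mul_sum, Finset.mul_sum]
    refine Finset.sum_congr rfl fun c _ => ?_
    ring
  · intro F
    have hP : (fun i => ∑ h : Fin N × (ZMod 7 × ZMod 7), (κ * ε h.1 * W h.2) *
        F (g h.1 (tau h.2 i))) = fun p => κ * ∑ i, ε i * Av F (g i p) := by
      funext p
      exact hval F p
    rw [hP]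
    exact h1 (Av F) (Av_anti hm F)
  · intro F hF p
    rw [hval]
    have e : Av F = F := funext fun q => Av_id hm F (hV hF) q
    rw [e]
    exact h2 F hF p

private lemma sum12 (f : Fin 12 → ℂ) : ∑ i, f i = f 0 + f 1 + f 2 + f 3 + f 4 + f 5 + f 6 + f 7 +
    f 8 + f 9 + f 10 + f 11 := by
  rw [Fin.sum_univ_castSucc, Fin.sum_univ_castSucc, Fin.sum_univ_castSucc, Fin.sum_univ_castSucc,
    Fin.sum_univ_eight]
  rfl

theorem hDim12 : StHDim12 := by
  intro hq m hm r r' hD hT
  obtain ⟨k1, k2, k3⟩ := hD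
  obtain ⟨⟨hr, hr', u1, u2, u3, u4⟩, t1, t2, t3, t4, t5⟩ := hT
  have c0 := count0 (m := m) hm
  have key := gen hq hm 12 ![fun p => p, r, r', fun p => r (r' p), fun p => r' (r p), fun p => r (r' (r p)), fun p => r' (r (r' p)), fun p => r (r' (r (r' p))), fun p => r' (r (r' (r p))), fun p => r (r' (r (r' (r p)))), fun p => r' (r (r' (r (r' p)))), fun p => r (r' (r (r' (r (r' p)))))] (fun _ => 1) (1 / 12) (inv7 r r' 1 1) ?_ (fun F hF => hF.1) ?_ ?_
  · rw [sum12] at key
    simp only [Matrix.cons_val_zero, Matrix.cons_val_one, Matrix.cons_val] at key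
    rw [c0, count hm hr (fun _ => k1),
        count hm hr' (fun _ => k2),
        count hm t1 (by norm_num),
        count hm t2 (by norm_num),
        count hm u1 (fun _ p => by
          show r (r' (r (r (r' (r p))))) = p
          rw [k1, k2, k1]),
        count hm u2 (fun _ p => by
          show r' (r (r' (r' (r (r' p))))) = p
          rw [k2, k1, k2]),
        count hm t3 (by norm_num),
        count hm t4 (by norm_num),
        count hm u3 (fun _ p => by
          show r (r' (r (r' (r (r (r' (r (r' (r p))))))))) = p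
          rw [k1, k2, k1, k2, k1]),
        count hm u4 (fun _ p => by
          show r' (r (r' (r (r' (r' (r (r' (r (r' p))))))))) = p
          rw [k2, k1, k2, k1, k2]),
        count hm t5 (by norm_num)] at key
    have h4 : (Module.finrank ℂ (inv7 r r' 1 1) : ℂ) =
        ((3 * 49 ^ (m - 1) + 3 * 7 ^ (m - 1) : ℕ) : ℂ) := by
      rw [key]
      push_cast
      ring
    exact_mod_cast h4
  · intro i
    fin_cases i
    · intro G p; rfl
    · intro G p; exact Av_comp hm hr G p
    · intro G p; exact Av_comp hm hr' G p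
    · intro G p; exact Av_comp hm t1 G p
    · intro G p; exact Av_comp hm t2 G p
    · intro G p; exact Av_comp hm u1 G p
    · intro G p; exact Av_comp hm u2 G p
    · intro G p; exact Av_comp hm t3 G p
    · intro G p; exact Av_comp hm t4 G p
    · intro G p; exact Av_comp hm u3 G p
    · intro G p; exact Av_comp hm u4 G p
    · intro G p; exact Av_comp hm t5 G p
  · intro F hF
    refine ⟨?_, ?_⟩
    · have e1 : (fun p => (1 / 12 : ℂ) * ∑ i : Fin 12, (1 : ℂ) *
          F ((![fun p => p, r, r', fun p => r (r' p), fun p => r' (r p), fun p => r (r' (r p)), fun p => r' (r (r' p)), fun p => r (r' (r (r' p))), fun p => r' (r (r' (r p))), fun p => r (r' (r (r' (r p)))), fun p => r' (r (r' (r (r' p)))), fun p => r (r' (r (r' (r (r' p)))))] : Fin 12 → Pt m → Pt m) i p)) =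
          (1 / 12 : ℂ) • (F + (fun p => F (r p)) + (fun p => F (r' p)) + (fun p => F (r (r' p))) + (fun p => F (r' (r p))) + (fun p => F (r (r' (r p)))) + (fun p => F (r' (r (r' p)))) + (fun p => F (r (r' (r (r' p))))) + (fun p => F (r' (r (r' (r p))))) + (fun p => F (r (r' (r (r' (r p)))))) + (fun p => F (r' (r (r' (r (r' p)))))) + (fun p => F (r (r' (r (r' (r (r' p)))))))) := by
        funext p
        rw [sum12]
        simp only [Matrix.cons_val_zero, Matrix.cons_val_one, Matrix.cons_val, Pi.smul_apply,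
          Pi.add_apply, smul_eq_mul, one_mul]
      rw [e1]
      exact (anti7 m).smul_mem _ ((anti7 m).add_mem ((anti7 m).add_mem ((anti7 m).add_mem ((anti7 m).add_mem ((anti7 m).add_mem ((anti7 m).add_mem ((anti7 m).add_mem ((anti7 m).add_mem ((anti7 m).add_mem ((anti7 m).add_mem ((anti7 m).add_mem hF (comp_anti hm hr hF)) (comp_anti hm hr' hF)) (comp_anti hm t1 hF)) (comp_anti hm t2 hF)) (comp_anti hm u1 hF)) (comp_anti hm u2 hF)) (comp_anti hm t3 hF)) (comp_anti hm t4 hF)) (comp_anti hm u3 hF)) (comp_anti hm u4 hF)) (comp_anti hm t5 hF))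
    · intro p
      constructor
      · simp only [sum12, Matrix.cons_val_zero, Matrix.cons_val_one, Matrix.cons_val, one_mul]
        have q1 : r' (r (r' (r (r' (r p))))) = r (r' (r (r' (r (r' p))))) := (k3 p).symm
        have q2 : r (r' (r (r' (r (r' (r p)))))) = r' (r (r' (r (r' p)))) := by
          rw [k3 (r p), k1]
        rw [q2, q1, k1 p]
        ring
      · simp only [sum12, Matrix.cons_val_zero, Matrix.cons_val_one, Matrix.cons_val, one_mul]
        rw [k2 p]
        ring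
  · rintro F ⟨hF, hF2⟩ p
    simp only [sum12, Matrix.cons_val_zero, Matrix.cons_val_one, Matrix.cons_val]
    rw [(hF2 (r' (r (r' (r (r' p)))))).1, (hF2 (r (r' (r (r' p))))).2, (hF2 (r' (r (r' (r p))))).1, (hF2 (r (r' (r p)))).2, (hF2 (r' (r (r' p)))).1, (hF2 (r (r' p))).2, (hF2 (r' (r p))).1, (hF2 (r p)).2, (hF2 (r' p)).1, (hF2 p).2, (hF2 p).1]
    ring

end Pool.Agent.Helper8.TK7
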